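import Mathlib

open MeasureTheory Filter Topology Set Metric
open scoped ENNReal NNReal

namespace Pool.Agent.Results.MP_95ea62_an.GagliardoComparison

/-- The homogeneous Gagliardo seminorm of order `s` on `ℝᴺ`, with values in `[0, ∞]`. -/
noncomputable def gagliardo {N : ℕ} (p s : ℝ) (f : EuclideanSpace ℝ (Fin N) → ℂ) : ℝ≥0∞ :=
  (∫⁻ x, ∫⁻ y, ‖f x - f y‖ₑ ^ p / ‖x - y‖ₑ ^ ((N : ℝ) + s * p)) ^ (1 / p)

variable {N : ℕ} {p : ℝ} {f : EuclideanSpace ℝ (Fin N) → ℂ}

/-- The `p`-th power of the `L^p` modulus of continuity. -/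
noncomputable def F (p : ℝ) (f : EuclideanSpace ℝ (Fin N) → ℂ) (h : EuclideanSpace ℝ (Fin N)) :
    ℝ≥0∞ := ∫⁻ x, ‖f (x + h) - f x‖ₑ ^ p

/-- The weight. -/
noncomputable def W (p s : ℝ) (h : EuclideanSpace ℝ (Fin N)) : ℝ≥0∞ :=
  (‖h‖ₑ ^ ((N : ℝ) + s * p))⁻¹

lemma measurable_F (hf : Measurable f) : Measurable (F p f) := by
  unfold F
  have h : Measurable fun q : EuclideanSpace ℝ (Fin N) × EuclideanSpace ℝ (Fin N) =>
      ‖f (q.2 + q.1) - f q.2‖ₑ ^ p := by
    fun_prop
  exact h.lintegral_prod_right'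

lemma measurable_W (s : ℝ) : Measurable (W (N := N) p s) := by
  unfold W
  fun_prop

lemma lintegral_eq (hf : Measurable f) (s : ℝ) :
    ∫⁻ x, ∫⁻ y, ‖f x - f y‖ₑ ^ p / ‖x - y‖ₑ ^ ((N : ℝ) + s * p) = ∫⁻ h, F p f h * W p s h := by
  have h1 : ∀ x, ∫⁻ y, ‖f x - f y‖ₑ ^ p / ‖x - y‖ₑ ^ ((N : ℝ) + s * p)
      = ∫⁻ h, ‖f (x + h) - f x‖ₑ ^ p * W p s h := by
    intro x
    rw [← lintegral_add_left_eq_self _ x]
    refine lintegral_congr fun h => ?_
    rw [← enorm_neg, neg_sub, div_eq_mul_inv, W]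
    congr 3
    rw [sub_add_cancel_left, enorm_neg]
  simp_rw [h1]
  rw [lintegral_lintegral_swap]
  · refine lintegral_congr fun h => ?_
    rw [F, lintegral_mul_const]
    fun_prop
  · have := measurable_W (N := N) (p := p) s
    fun_prop

/-- `F` is at most `2^p ‖f‖_p^p`. -/
lemma F_le (hp : 1 ≤ p) (hf : Measurable f) (h : EuclideanSpace ℝ (Fin N)) :
    F p f h ≤ 2 ^ p * ∫⁻ x, ‖f x‖ₑ ^ p := by
  calc F p f h ≤ ∫⁻ x, 2 ^ (p - 1) * (‖f (x + h)‖ₑ ^ p + ‖f x‖ₑ ^ p) := by
        refine lintegral_mono fun x => ?_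
        exact (ENNReal.rpow_le_rpow enorm_sub_le (by linarith)).trans
          (ENNReal.rpow_add_le_mul_rpow_add_rpow _ _ hp)
    _ = 2 ^ (p - 1) * ((∫⁻ x, ‖f (x + h)‖ₑ ^ p) + ∫⁻ x, ‖f x‖ₑ ^ p) := by
        rw [lintegral_const_mul _ (by fun_prop), lintegral_add_left (by fun_prop)]
    _ = 2 ^ (p - 1) * ((∫⁻ x, ‖f x‖ₑ ^ p) + ∫⁻ x, ‖f x‖ₑ ^ p) := by
        rw [lintegral_add_right_eq_self (fun x => ‖f x‖ₑ ^ p) h]
    _ = 2 ^ p * ∫⁻ x, ‖f x‖ₑ ^ p := by
        rw [← two_mul, ← mul_assoc]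
        congr 1
        nth_rw 2 [← ENNReal.rpow_one 2]
        rw [← ENNReal.rpow_add _ _ two_ne_zero ENNReal.ofNat_ne_top]
        congr 1
        ring

/-- Halving: `F(h) ≤ 2^p F(h/2)`. -/
lemma F_half (hp : 1 ≤ p) (hf : Measurable f) (h : EuclideanSpace ℝ (Fin N)) :
    F p f h ≤ 2 ^ p * F p f ((1 / 2 : ℝ) • h) := by
  set k := (1 / 2 : ℝ) • h with hk
  have hh : h = k + k := by
    rw [hk, ← add_smul]
    norm_num
  calc F p f h ≤ ∫⁻ x, 2 ^ (p - 1) * (‖f (x + k + k) - f (x + k)‖ₑ ^ p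
          + ‖f (x + k) - f x‖ₑ ^ p) := by
        refine lintegral_mono fun x => ?_
        have e : f (x + h) - f x = (f (x + k + k) - f (x + k)) + (f (x + k) - f x) := by
          rw [hh, ← add_assoc]
          ring
        simp only [e]
        exact (ENNReal.rpow_le_rpow (enorm_add_le _ _) (by linarith)).trans
          (ENNReal.rpow_add_le_mul_rpow_add_rpow _ _ hp)
    _ = 2 ^ (p - 1) * ((∫⁻ x, ‖f (x + k + k) - f (x + k)‖ₑ ^ p)
          + ∫⁻ x, ‖f (x + k) - f x‖ₑ ^ p) := by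
        rw [lintegral_const_mul _ (by fun_prop), lintegral_add_left (by fun_prop)]
    _ = 2 ^ (p - 1) * (F p f k + F p f k) := by
        rw [lintegral_add_right_eq_self (fun x => ‖f (x + k) - f x‖ₑ ^ p) k]
        rfl
    _ = 2 ^ p * F p f k := by
        rw [← two_mul, ← mul_assoc]
        congr 1
        nth_rw 2 [← ENNReal.rpow_one 2]
        rw [← ENNReal.rpow_add _ _ two_ne_zero ENNReal.ofNat_ne_top]
        congr 1
        ring

/-- Scaling. -/
lemma lintegral_half (Φ : EuclideanSpace ℝ (Fin N) → ℝ≥0∞) (hΦ : Measurable Φ) :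
    ∫⁻ h in ball 0 (1 / 2), Φ h
      = ENNReal.ofReal ((2 ^ N)⁻¹) * ∫⁻ h in ball 0 1, Φ ((1 / 2 : ℝ) • h) := by
  have hm := Measure.map_addHaar_smul (volume : Measure (EuclideanSpace ℝ (Fin N)))
    (two_ne_zero (α := ℝ))
  set Ψ : EuclideanSpace ℝ (Fin N) → ℝ≥0∞ :=
    (ball 0 1).indicator fun h => Φ ((1 / 2 : ℝ) • h) with hΨ
  have hΨm : Measurable Ψ := by
    rw [hΨ]
    exact (hΦ.comp (by fun_prop)).indicator measurableSet_ball
  rw [← lintegral_indicator measurableSet_ball, ← lintegral_indicator measurableSet_ball]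
  have h1 : ∫⁻ h, Ψ ((2 : ℝ) • h) = ∫⁻ h, Ψ h ∂(Measure.map (fun h => (2 : ℝ) • h) volume) := by
    rw [lintegral_map hΨm (by fun_prop)]
  have h2 : (fun h => Ψ ((2 : ℝ) • h)) = (ball 0 (1 / 2)).indicator Φ := by
    funext h
    rw [hΨ]
    by_cases hh : h ∈ ball (0 : EuclideanSpace ℝ (Fin N)) (1 / 2)
    · have : (2 : ℝ) • h ∈ ball (0 : EuclideanSpace ℝ (Fin N)) 1 := by
        rw [mem_ball_zero_iff] at hh ⊢
        rw [norm_smul, Real.norm_ofNat]
        linarith
      rw [indicator_of_mem this, indicator_of_mem hh, smul_smul]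
      norm_num
    · have : (2 : ℝ) • h ∉ ball (0 : EuclideanSpace ℝ (Fin N)) 1 := by
        rw [mem_ball_zero_iff] at hh ⊢
        rw [norm_smul, Real.norm_ofNat]
        intro h'
        exact hh (by linarith)
      rw [indicator_of_notMem this, indicator_of_notMem hh]
  rw [← h2, h1, hm, lintegral_smul_measure, finrank_euclideanSpace_fin, smul_eq_mul,
    abs_of_pos (by positivity)]

/-- The local part of the seminorm. -/
noncomputable def J (p s : ℝ) (f : EuclideanSpace ℝ (Fin N) → ℂ) : ℝ≥0∞ :=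
  ∫⁻ h in ball 0 1, F p f h * W p s h

/-- The defect of homogeneity. -/
noncomputable def D (p : ℝ) (f : EuclideanSpace ℝ (Fin N) → ℂ) (h : EuclideanSpace ℝ (Fin N)) :
    ℝ≥0∞ := 2 ^ p * F p f ((1 / 2 : ℝ) • h) - F p f h

lemma measurable_D (hf : Measurable f) : Measurable (D p f) := by
  unfold D
  have := measurable_F (p := p) hf
  fun_prop

lemma W_half (hp : 0 < p) {s : ℝ} (hs : 0 < s) (h : EuclideanSpace ℝ (Fin N)) :
    W p s ((1 / 2 : ℝ) • h) = ENNReal.ofReal (2 ^ ((N : ℝ) + s * p)) * W p s h := by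
  have hr : 0 < (N : ℝ) + s * p := by positivity
  rw [W, W, enorm_smul, ENNReal.mul_rpow_of_nonneg _ _ hr.le, ENNReal.mul_inv]
  · congr 1
    have : ‖(1 / 2 : ℝ)‖ₑ = ENNReal.ofReal (2⁻¹) := by
      rw [Real.enorm_eq_ofReal (by norm_num), one_div]
    rw [this, ENNReal.ofReal_rpow_of_pos (by norm_num), ← ENNReal.ofReal_inv_of_pos (by positivity),
      Real.inv_rpow (by norm_num), inv_inv]
  · left
    simp [hr.not_gt]
  · left
    exact ENNReal.rpow_ne_top_of_nonneg hr.le (by simp)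

/-- The recursion for the local part. -/
lemma J_rec (hp : 1 ≤ p) (hf : Measurable f) {s : ℝ} (hs : 0 < s) :
    J p s f = (∫⁻ h in ball 0 1 \ ball 0 (1 / 2), F p f h * W p s h)
      + ENNReal.ofReal (2 ^ (-((1 - s) * p))) * (J p s f + ∫⁻ h in ball 0 1, D p f h * W p s h) := by
  have hF := measurable_F (p := p) hf
  have hW := measurable_W (N := N) (p := p) s
  have hD := measurable_D (p := p) hf
  have hp0 : 0 < p := by linarith
  have h1 : J p s f = (∫⁻ h in ball 0 (1 / 2), F p f h * W p s h)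
      + ∫⁻ h in ball 0 1 \ ball 0 (1 / 2), F p f h * W p s h := by
    rw [J, ← lintegral_inter_add_sdiff (fun h => F p f h * W p s h) (ball 0 1)
      (measurableSet_ball (x := (0 : EuclideanSpace ℝ (Fin N))) (ε := 1 / 2))]
    rw [inter_eq_self_of_subset_right (ball_subset_ball (by norm_num))]
  have h2 : ∫⁻ h in ball 0 (1 / 2), F p f h * W p s h
      = ENNReal.ofReal (2 ^ (-((1 - s) * p)))
        * (J p s f + ∫⁻ h in ball 0 1, D p f h * W p s h) := by
    rw [lintegral_half (fun h => F p f h * W p s h) (hF.mul hW), J,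
      ← lintegral_add_left (show Measurable fun h => F p f h * W p s h from hF.mul hW)]
    have e1 : ∀ h : EuclideanSpace ℝ (Fin N), F p f ((1 / 2 : ℝ) • h) * W p s ((1 / 2 : ℝ) • h)
        = ENNReal.ofReal (2 ^ ((N : ℝ) + s * p - p)) * (F p f h * W p s h + D p f h * W p s h) := by
      intro h
      have e2 : F p f h + D p f h = 2 ^ p * F p f ((1 / 2 : ℝ) • h) :=
        add_tsub_cancel_of_le (F_half hp hf h)
      rw [← add_mul, e2, W_half hp0 hs]
      have e3 : ENNReal.ofReal (2 ^ ((N : ℝ) + s * p))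
          = ENNReal.ofReal (2 ^ ((N : ℝ) + s * p - p)) * 2 ^ p := by
        have : (2 : ℝ≥0∞) = ENNReal.ofReal 2 := by simp
        rw [this, ENNReal.ofReal_rpow_of_pos two_pos, ← ENNReal.ofReal_mul (by positivity),
          ← Real.rpow_add two_pos]
        congr 2
        ring
      rw [e3]
      ring
    simp_rw [e1]
    rw [lintegral_const_mul _ (by fun_prop), ← mul_assoc, ← ENNReal.ofReal_mul (by positivity)]
    congr 2
    rw [← Real.rpow_natCast, ← Real.rpow_neg two_pos.le, ← Real.rpow_add two_pos]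
    congr 1
    ring
  rw [h2, add_comm] at h1
  exact h1

lemma W_mono (hp : 0 < p) {s t : ℝ} (hst : s ≤ t) {h : EuclideanSpace ℝ (Fin N)}
    (hh : ‖h‖ ≤ 1) : W p s h ≤ W p t h := by
  rw [W, W, ENNReal.inv_le_inv]
  have h1 : ‖h‖ₑ ≤ 1 := by
    rw [← ofReal_norm, ENNReal.ofReal_le_one]
    exact hh
  refine ENNReal.rpow_le_rpow_of_exponent_ge h1 ?_
  have := mul_le_mul_of_nonneg_right hst hp.le
  linarith

/-- The monotonicity of the local part. -/
lemma J_mono (hp : 1 ≤ p) (hf : Measurable f) {s t : ℝ} (hs : 0 < s) (hst : s ≤ t) (ht : t < 1) :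
    ENNReal.ofReal (1 - 2 ^ (-((1 - s) * p))) * J p s f
      ≤ ENNReal.ofReal (1 - 2 ^ (-((1 - t) * p))) * J p t f := by
  have hp0 : 0 < p := by linarith
  have hq : ∀ r : ℝ, r < 1 → (0 : ℝ) < 2 ^ (-((1 - r) * p)) ∧ (2 : ℝ) ^ (-((1 - r) * p)) < 1 := by
    intro r hr
    refine ⟨by positivity, Real.rpow_lt_one_of_one_lt_of_neg one_lt_two ?_⟩
    have : 0 < (1 - r) * p := mul_pos (by linarith) hp0
    linarith
  have hqs := hq s (by linarith)
  have hqt := hq t ht
  set qs : ℝ := 2 ^ (-((1 - s) * p)) with hqsdef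
  set qt : ℝ := 2 ^ (-((1 - t) * p)) with hqtdef
  have hqst : qs ≤ qt := by
    refine Real.rpow_le_rpow_of_exponent_le one_le_two ?_
    have := mul_le_mul_of_nonneg_right hst hp0.le
    linarith
  rcases eq_or_ne (J p t f) ⊤ with hJt | hJt
  · rw [hJt, ENNReal.mul_top]
    · exact le_top
    · simpa using hqt.2
  have hmonoB : ∀ G : EuclideanSpace ℝ (Fin N) → ℝ≥0∞, ∀ A ⊆ ball (0 : EuclideanSpace ℝ (Fin N)) 1,
      MeasurableSet A → ∫⁻ h in A, G h * W p s h ≤ ∫⁻ h in A, G h * W p t h := by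
    intro G A hA hAm
    refine setLIntegral_mono' hAm fun h hh => ?_
    refine mul_le_mul_right (W_mono hp0 hst ?_) _
    have := hA hh
    rw [mem_ball_zero_iff] at this
    exact this.le
  have hJst : J p s f ≤ J p t f := hmonoB _ _ subset_rfl measurableSet_ball
  have hJs : J p s f ≠ ⊤ := ne_top_of_le_ne_top hJt hJst
  have rs := J_rec hp hf hs (f := f)
  have rt := J_rec hp hf (lt_of_lt_of_le hs hst) (f := f)
  set as := ∫⁻ h in ball 0 1 \ ball 0 (1 / 2), F p f h * W p s h with has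
  set at' := ∫⁻ h in ball 0 1 \ ball 0 (1 / 2), F p f h * W p t h with hat
  set ds := ∫⁻ h in ball 0 1, D p f h * W p s h with hds
  set dt := ∫⁻ h in ball 0 1, D p f h * W p t h with hdt
  have ha : as ≤ at' := hmonoB _ _ sdiff_subset (measurableSet_ball.diff measurableSet_ball)
  have hd : ds ≤ dt := hmonoB _ _ subset_rfl measurableSet_ball
  have hat_top : at' ≠ ⊤ := by
    intro h
    rw [h, top_add] at rt
    exact hJt rt
  have hdt_top : dt ≠ ⊤ := by
    intro h
    rw [h, add_top, ENNReal.mul_top (by simpa using hqt.1), add_top] at rt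
    exact hJt rt
  have has_top : as ≠ ⊤ := ne_top_of_le_ne_top hat_top ha
  have hds_top : ds ≠ ⊤ := ne_top_of_le_ne_top hdt_top hd
  have rs' : (J p s f).toReal = as.toReal + qs * ((J p s f).toReal + ds.toReal) := by
    have := congrArg ENNReal.toReal rs
    rw [ENNReal.toReal_add has_top (ENNReal.mul_ne_top ENNReal.ofReal_ne_top
      (ENNReal.add_ne_top.2 ⟨hJs, hds_top⟩)), ENNReal.toReal_mul, ENNReal.toReal_add hJs hds_top,
      ENNReal.toReal_ofReal hqs.1.le] at this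
    exact this
  have rt' : (J p t f).toReal = at'.toReal + qt * ((J p t f).toReal + dt.toReal) := by
    have := congrArg ENNReal.toReal rt
    rw [ENNReal.toReal_add hat_top (ENNReal.mul_ne_top ENNReal.ofReal_ne_top
      (ENNReal.add_ne_top.2 ⟨hJt, hdt_top⟩)), ENNReal.toReal_mul, ENNReal.toReal_add hJt hdt_top,
      ENNReal.toReal_ofReal hqt.1.le] at this
    exact this
  have ha' : as.toReal ≤ at'.toReal := ENNReal.toReal_mono hat_top ha
  have hd' : ds.toReal ≤ dt.toReal := ENNReal.toReal_mono hdt_top hd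
  have key : (1 - qs) * (J p s f).toReal ≤ (1 - qt) * (J p t f).toReal := by
    have h1 : qs * ds.toReal ≤ qt * dt.toReal :=
      mul_le_mul hqst hd' ENNReal.toReal_nonneg hqt.1.le
    nlinarith
  rw [← ENNReal.ofReal_toReal hJs, ← ENNReal.ofReal_toReal hJt,
    ← ENNReal.ofReal_mul (by linarith [hqs.2]), ← ENNReal.ofReal_mul (by linarith [hqt.2])]
  exact ENNReal.ofReal_le_ofReal key

/-- The weight is integrable at infinity. -/
noncomputable def tail (N : ℕ) (p θ : ℝ) : ℝ≥0∞ :=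
  ∫⁻ h in (ball (0 : EuclideanSpace ℝ (Fin N)) 1)ᶜ, W p θ h

lemma tail_ne_top (hp : 0 < p) {θ : ℝ} (hθ : 0 < θ) : tail N p θ ≠ ⊤ := by
  have hr : (Module.finrank ℝ (EuclideanSpace ℝ (Fin N)) : ℝ) < (N : ℝ) + θ * p := by
    rw [finrank_euclideanSpace_fin]
    have : 0 < θ * p := mul_pos hθ hp
    linarith
  have hr0 : 0 < (N : ℝ) + θ * p := by
    have : 0 < θ * p := mul_pos hθ hp
    positivity
  have hfin := finite_integral_one_add_norm (E := EuclideanSpace ℝ (Fin N)) (μ := volume) hr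
  have hle : tail N p θ ≤ ENNReal.ofReal (2 ^ ((N : ℝ) + θ * p)) *
      ∫⁻ x : EuclideanSpace ℝ (Fin N), ENNReal.ofReal ((1 + ‖x‖) ^ (-((N : ℝ) + θ * p))) := by
    rw [← lintegral_const_mul _ (by fun_prop)]
    refine (setLIntegral_mono' measurableSet_ball.compl fun h hh => ?_).trans
      (setLIntegral_le_lintegral _ _)
    have hh' : 1 ≤ ‖h‖ := by
      simpa [mem_ball_zero_iff] using hh
    rw [W, ← ofReal_norm, ENNReal.ofReal_rpow_of_pos (by linarith),
      ← ENNReal.ofReal_inv_of_pos (by positivity), ← ENNReal.ofReal_mul (by positivity)]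
    refine ENNReal.ofReal_le_ofReal ?_
    rw [Real.rpow_neg (by positivity), ← div_eq_mul_inv, ← Real.div_rpow (by norm_num)
      (by positivity), ← Real.inv_rpow (by positivity)]
    refine Real.rpow_le_rpow (by positivity) ?_ hr0.le
    rw [inv_le_comm₀ (by linarith) (by positivity), inv_div]
    linarith
  exact ne_top_of_le_ne_top (ENNReal.mul_ne_top ENNReal.ofReal_ne_top hfin.ne) hle

/-- The bound for the `p`-th powers. -/
lemma main_pow (hp : 1 ≤ p) (hf : Measurable f) {θ s t : ℝ} (hθ : 0 < θ) (hθs : θ < s)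
    (hst : s < t) (ht : t < 1) :
    ENNReal.ofReal (min s (1 - s)) * ∫⁻ h, F p f h * W p s h
      ≤ ENNReal.ofReal (p / (θ * (1 - 2 ^ (-p)))) *
          (ENNReal.ofReal (min t (1 - t)) * ∫⁻ h, F p f h * W p t h)
        + 2 ^ p * tail N p θ * ∫⁻ x, ‖f x‖ₑ ^ p := by
  have hp0 : 0 < p := by linarith
  have hF := measurable_F (p := p) hf
  have hW := measurable_W (N := N) (p := p) s
  have hs0 : 0 < s := hθ.trans hθs
  have hs1 : s < 1 := hst.trans ht
  have ht0 : 0 < t := hs0.trans hst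
  have h2p : (0 : ℝ) < 1 - 2 ^ (-p) := by
    have : (2 : ℝ) ^ (-p) < 1 := Real.rpow_lt_one_of_one_lt_of_neg one_lt_two (by linarith)
    linarith
  -- split
  rw [← lintegral_add_compl (fun h => F p f h * W p s h)
    (measurableSet_ball (x := (0 : EuclideanSpace ℝ (Fin N))) (ε := 1)), mul_add]
  refine add_le_add ?_ ?_
  · -- local part
    have h1 : (1 - s) * (1 - 2 ^ (-p)) ≤ 1 - 2 ^ (-((1 - s) * p)) := by
      have h2 : ((2 : ℝ) ^ (-p)) ^ (1 - s) * 1 ^ s ≤ (1 - s) * 2 ^ (-p) + s * 1 :=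
        Real.geom_mean_le_arith_mean2_weighted (by linarith) hs0.le (by positivity) zero_le_one
          (by ring)
      rw [Real.one_rpow, mul_one, ← Real.rpow_mul two_pos.le] at h2
      have h3 : -p * (1 - s) = -((1 - s) * p) := by ring
      rw [h3] at h2
      linarith
    have h4 : 1 - (2 : ℝ) ^ (-((1 - t) * p)) ≤ (1 - t) * p := by
      have h5 := Real.add_one_le_exp (Real.log 2 * (-((1 - t) * p)))
      rw [← Real.rpow_def_of_pos two_pos] at h5
      have h6 : Real.log 2 ≤ 1 := by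
        have := Real.log_two_lt_d9
        linarith
      have h7 : 0 ≤ (1 - t) * p := mul_nonneg (by linarith) hp0.le
      nlinarith
    have h8 : (1 - t) ≤ θ⁻¹ * min t (1 - t) := by
      have h9 : θ * (1 - t) ≤ min t (1 - t) := by
        refine le_min ?_ ?_ <;> nlinarith
      rw [inv_mul_eq_div, le_div_iff₀ hθ]
      linarith
    calc ENNReal.ofReal (min s (1 - s)) * ∫⁻ h in ball 0 1, F p f h * W p s h
        ≤ ENNReal.ofReal ((1 - 2 ^ (-p))⁻¹ * (1 - 2 ^ (-((1 - s) * p)))) * J p s f := by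
          refine mul_le_mul_left (ENNReal.ofReal_le_ofReal ?_) _
          rw [inv_mul_eq_div, le_div_iff₀ h2p]
          exact (mul_le_mul_of_nonneg_right (min_le_right _ _) h2p.le).trans h1
      _ = ENNReal.ofReal ((1 - 2 ^ (-p))⁻¹) *
          (ENNReal.ofReal (1 - 2 ^ (-((1 - s) * p))) * J p s f) := by
          rw [ENNReal.ofReal_mul (by positivity), mul_assoc]
      _ ≤ ENNReal.ofReal ((1 - 2 ^ (-p))⁻¹) *
          (ENNReal.ofReal (1 - 2 ^ (-((1 - t) * p))) * J p t f) :=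
          mul_le_mul_right (J_mono hp hf hs0 hst.le ht) _
      _ ≤ ENNReal.ofReal ((1 - 2 ^ (-p))⁻¹) *
          (ENNReal.ofReal (p * (θ⁻¹ * min t (1 - t))) * J p t f) := by
          refine mul_le_mul_right (mul_le_mul_left (ENNReal.ofReal_le_ofReal ?_) _) _
          refine h4.trans ?_
          rw [mul_comm]
          exact mul_le_mul_of_nonneg_left h8 hp0.le
      _ = ENNReal.ofReal (p / (θ * (1 - 2 ^ (-p)))) *
          (ENNReal.ofReal (min t (1 - t)) * J p t f) := by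
          have hmin : 0 ≤ min t (1 - t) := le_min ht0.le (by linarith)
          have e : ENNReal.ofReal ((1 - 2 ^ (-p))⁻¹) * ENNReal.ofReal (p * (θ⁻¹ * min t (1 - t)))
              = ENNReal.ofReal (p / (θ * (1 - 2 ^ (-p)))) * ENNReal.ofReal (min t (1 - t)) := by
            rw [← ENNReal.ofReal_mul (by positivity), ← ENNReal.ofReal_mul (by positivity)]
            congr 1
            field_simp
          rw [← mul_assoc, e, mul_assoc]
      _ ≤ ENNReal.ofReal (p / (θ * (1 - 2 ^ (-p)))) *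
          (ENNReal.ofReal (min t (1 - t)) * ∫⁻ h, F p f h * W p t h) := by
          refine mul_le_mul_right (mul_le_mul_right ?_ _) _
          exact setLIntegral_le_lintegral _ _
  · -- tail
    calc ENNReal.ofReal (min s (1 - s)) * ∫⁻ h in (ball 0 1)ᶜ, F p f h * W p s h
        ≤ 1 * ∫⁻ h in (ball 0 1)ᶜ, F p f h * W p s h := by
          refine mul_le_mul_left ?_ _
          rw [ENNReal.ofReal_le_one]
          exact (min_le_left _ _).trans hs1.le
      _ ≤ ∫⁻ h in (ball (0 : EuclideanSpace ℝ (Fin N)) 1)ᶜ,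
            (2 ^ p * ∫⁻ x, ‖f x‖ₑ ^ p) * W p θ h := by
          rw [one_mul]
          refine setLIntegral_mono' measurableSet_ball.compl fun h hh => ?_
          refine mul_le_mul' (F_le hp hf h) ?_
          have hh' : 1 ≤ ‖h‖ := by
            simpa [mem_ball_zero_iff] using hh
          rw [W, W, ENNReal.inv_le_inv]
          refine ENNReal.rpow_le_rpow_of_exponent_le ?_ ?_
          · rw [← ofReal_norm, ENNReal.one_le_ofReal]
            exact hh'
          · have := mul_le_mul_of_nonneg_right hθs.le hp0.le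
            linarith
      _ = 2 ^ p * tail N p θ * ∫⁻ x, ‖f x‖ₑ ^ p := by
          rw [lintegral_const_mul _ (measurable_W θ), tail]
          ring

/-- **Uniform comparison of Gagliardo seminorms of different orders**, for all measurable
functions. -/
theorem result (N : ℕ) (p θ : ℝ) (hp : 1 < p) (hθ : 0 < θ) (hθ1 : θ < 1) :
    ∃ C : ℝ≥0, ∀ s t : ℝ, θ < s → s < t → t < 1 →
      ∀ f : EuclideanSpace ℝ (Fin N) → ℂ, Measurable f →
        ENNReal.ofReal (min s (1 - s)) ^ (1 / p) * gagliardo p s f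
          ≤ C * (eLpNorm f (ENNReal.ofReal p) volume
            + ENNReal.ofReal (min t (1 - t)) ^ (1 / p) * gagliardo p t f) := by
  have hp0 : 0 < p := by linarith
  have hp1 : 1 / p ≤ 1 := by
    rw [div_le_one hp0]
    exact hp.le
  have hp1' : 0 ≤ 1 / p := by positivity
  have htail : tail N p θ ≠ ⊤ := tail_ne_top hp0 hθ
  set A : ℝ≥0∞ := ENNReal.ofReal (p / (θ * (1 - 2 ^ (-p)))) with hA
  set B : ℝ≥0∞ := 2 ^ p * tail N p θ with hB
  have hBtop : B ≠ ⊤ := ENNReal.mul_ne_top (by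
    exact ENNReal.rpow_ne_top_of_nonneg hp0.le ENNReal.ofNat_ne_top) htail
  set C' : ℝ≥0∞ := A ^ (1 / p) + B ^ (1 / p) with hC'
  have hC'top : C' ≠ ⊤ := ENNReal.add_ne_top.2
    ⟨ENNReal.rpow_ne_top_of_nonneg hp1' ENNReal.ofReal_ne_top,
      ENNReal.rpow_ne_top_of_nonneg hp1' hBtop⟩
  refine ⟨C'.toNNReal, fun s t hs hst ht f hf => ?_⟩
  rw [ENNReal.coe_toNNReal hC'top]
  have hnorm : eLpNorm f (ENNReal.ofReal p) volume = (∫⁻ x, ‖f x‖ₑ ^ p) ^ (1 / p) := by
    rw [eLpNorm_eq_lintegral_rpow_enorm_toReal (by simpa using hp0) ENNReal.ofReal_ne_top,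
      ENNReal.toReal_ofReal hp0.le]
  rw [hnorm, gagliardo, gagliardo, ← ENNReal.mul_rpow_of_nonneg _ _ hp1',
    ← ENNReal.mul_rpow_of_nonneg _ _ hp1', lintegral_eq hf, lintegral_eq hf]
  have hmain := main_pow hp.le hf hθ hs hst ht (f := f)
  calc (ENNReal.ofReal (min s (1 - s)) * ∫⁻ h, F p f h * W p s h) ^ (1 / p)
      ≤ (A * (ENNReal.ofReal (min t (1 - t)) * ∫⁻ h, F p f h * W p t h)
          + B * ∫⁻ x, ‖f x‖ₑ ^ p) ^ (1 / p) := ENNReal.rpow_le_rpow hmain hp1'
    _ ≤ (A * (ENNReal.ofReal (min t (1 - t)) * ∫⁻ h, F p f h * W p t h)) ^ (1 / p)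
          + (B * ∫⁻ x, ‖f x‖ₑ ^ p) ^ (1 / p) := ENNReal.rpow_add_le_add_rpow _ _ hp1' hp1
    _ = A ^ (1 / p) * (ENNReal.ofReal (min t (1 - t)) * ∫⁻ h, F p f h * W p t h) ^ (1 / p)
          + B ^ (1 / p) * (∫⁻ x, ‖f x‖ₑ ^ p) ^ (1 / p) := by
        rw [ENNReal.mul_rpow_of_nonneg A _ hp1', ENNReal.mul_rpow_of_nonneg B _ hp1']
    _ ≤ C' * (ENNReal.ofReal (min t (1 - t)) * ∫⁻ h, F p f h * W p t h) ^ (1 / p)
          + C' * (∫⁻ x, ‖f x‖ₑ ^ p) ^ (1 / p) :=
        add_le_add (mul_le_mul_left le_self_add _) (mul_le_mul_left le_add_self _)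
    _ = C' * ((∫⁻ x, ‖f x‖ₑ ^ p) ^ (1 / p)
          + (ENNReal.ofReal (min t (1 - t)) * ∫⁻ h, F p f h * W p t h) ^ (1 / p)) := by
        rw [mul_add, add_comm]

end Pool.Agent.Results.MP_95ea62_an.GagliardoComparison
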